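import Pool.Agent.Helper25.GF.Goals

/-!
Project GF, packet EX1: union bound.
-/

namespace Pool.Agent.Helper55.GF

open Finset Pool.Agent.Helper25.GF

/-- union bound -/
theorem Pr_le_sum {d n : ℕ} {ι : Type*} (S : Finset ι) (E : Om d n → Prop)
    (F : ι → Om d n → Prop) (h : ∀ ω, E ω → ∃ i ∈ S, F i ω) :
    Pr E ≤ ∑ i ∈ S, Pr (F i) := by
  classical
  unfold Pr
  rw [← Finset.sum_div]
  refine div_le_div_of_nonneg_right ?_ (Nat.cast_nonneg _)
  rw [← Nat.cast_sum]
  refine Nat.cast_le.2 ?_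
  refine le_trans (Finset.card_le_card (t := S.biUnion fun i => univ.filter (F i)) ?_)
    Finset.card_biUnion_le
  intro ω hω
  rw [Finset.mem_filter] at hω
  obtain ⟨i, hi, hF⟩ := h ω hω.2
  rw [Finset.mem_biUnion]
  exact ⟨i, hi, by simpa using hF⟩

theorem En_eq {A : Finset ℕ} {T N : ℕ} (hA : A ⊆ range T) (hT : T ≤ N) : En A N = En A T := by
  unfold En
  refine Finset.sum_congr ?_ fun _ _ => rfl
  ext t
  simp only [Finset.mem_filter]
  constructor
  · rintro ⟨h1, h2, h3⟩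
    exact ⟨h1, h2, Finset.mem_range.1 (hA h1)⟩
  · rintro ⟨h1, h2, h3⟩
    exact ⟨h1, h2, lt_of_lt_of_le h3 hT⟩

/-- EX1 -/
theorem ex1 (h1 : Pool.Agent.Helper25.GF.PIN) (h2 : Pool.Agent.Helper25.GF.UNB) :
    Pool.Agent.Helper25.GF.EX1 := by
  classical
  intro d δ η hδ hη
  obtain ⟨T₀, hT₀, hU⟩ := h2 δ η hδ hη
  refine ⟨T₀, hT₀, fun n => ?_⟩
  set f : ℕ → ℕ → ℝ := fun T k =>
    Real.exp (- ((1 + δ) * k * Real.log (Real.exp 1 * T / k))) with hf
  refine le_trans (Pr_le_sum (Icc T₀ (n + 1)) _ (fun T (ω : Om d n) =>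
    ∃ A : Finset ℕ, A ⊆ range T ∧ Idp ω A ∧ 0 < A.card ∧ η * T ≤ A.card ∧
    (1 + δ) * A.card * Real.log (Real.exp 1 * T / A.card) < d * En A T) ?_) ?_
  · rintro ω ⟨T, hT1, hT2, hA⟩
    exact ⟨T, Finset.mem_Icc.2 ⟨hT1, hT2⟩, hA⟩
  refine le_trans (Finset.sum_le_sum fun T hT => ?_) (hU (n + 1))
  rw [Finset.mem_Icc] at hT
  set S : Finset (Finset ℕ) := (range T).powerset.filter (fun A => 0 < A.card ∧ η * T ≤ A.card ∧
    (1 + δ) * A.card * Real.log (Real.exp 1 * T / A.card) < d * En A T) with hS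
  have e1 : Pr (fun ω : Om d n =>
      ∃ A : Finset ℕ, A ⊆ range T ∧ Idp ω A ∧ 0 < A.card ∧ η * T ≤ A.card ∧
      (1 + δ) * A.card * Real.log (Real.exp 1 * T / A.card) < d * En A T) ≤
      ∑ A ∈ S, Pr (fun ω : Om d n => Idp ω A) := by
    refine Pr_le_sum S _ (fun A (ω : Om d n) => Idp ω A) ?_
    rintro ω ⟨A, hA1, hA2, hA3, hA4, hA5⟩
    exact ⟨A, by simp only [hS, Finset.mem_filter, Finset.mem_powerset]; exact
      ⟨hA1, hA3, hA4, hA5⟩, hA2⟩
  refine e1.trans ?_
  have e2 : ∀ A ∈ S, Pr (fun ω : Om d n => Idp ω A) ≤ f T A.card := by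
    intro A hA
    simp only [hS, Finset.mem_filter, Finset.mem_powerset] at hA
    obtain ⟨hA1, hA3, hA4, hA5⟩ := hA
    refine (h1 d n A (hA1.trans (Finset.range_subset_range.2 hT.2))).trans ?_
    rw [hf]
    refine Real.exp_le_exp.2 (neg_le_neg ?_)
    rw [En_eq hA1 hT.2]
    exact hA5.le
  refine (Finset.sum_le_sum e2).trans ?_
  have e3 : ∀ A ∈ S, A.card ∈ (Icc 1 T).filter (fun k : ℕ => η * T ≤ k) := by
    intro A hA
    simp only [hS, Finset.mem_filter, Finset.mem_powerset] at hA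
    obtain ⟨hA1, hA3, hA4, hA5⟩ := hA
    rw [Finset.mem_filter, Finset.mem_Icc]
    refine ⟨⟨hA3, ?_⟩, hA4⟩
    have := Finset.card_le_card hA1
    rwa [Finset.card_range] at this
  rw [← Finset.sum_fiberwise_of_maps_to e3]
  refine Finset.sum_le_sum fun k _ => ?_
  calc ∑ A ∈ S with A.card = k, f T A.card = ∑ A ∈ S with A.card = k, f T k := by
        refine Finset.sum_congr rfl fun A hA => ?_
        rw [(Finset.mem_filter.1 hA).2]
    _ = ((S.filter fun A => A.card = k).card : ℝ) * f T k := by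
        rw [Finset.sum_const, nsmul_eq_mul]
    _ ≤ (T.choose k : ℝ) * f T k := by
        refine mul_le_mul_of_nonneg_right ?_ (Real.exp_pos _).le
        refine Nat.cast_le.2 ?_
        have : (S.filter fun A => A.card = k) ⊆ (range T).powersetCard k := by
          intro A hA
          rw [Finset.mem_filter] at hA
          have hA' := hA.1
          simp only [hS, Finset.mem_filter, Finset.mem_powerset] at hA'
          exact Finset.mem_powersetCard.2 ⟨hA'.1, hA.2⟩
        refine (Finset.card_le_card this).trans ?_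
        rw [Finset.card_powersetCard, Finset.card_range]

end Pool.Agent.Helper55.GF
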